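import Mathlib

set_option autoImplicit false

open MvPolynomial

namespace Pool.Agent.N284.Shanks


/-- The successor of an exponent `(j, k)` in the degree-lexicographic order: after `z₁^(j+1) z₂^k`
comes `z₁^j z₂^(k+1)`, and after `z₂^k` comes `z₁^(k+1)`. -/
def nextExponent : ℕ × ℕ → ℕ × ℕ
  | (j + 1, k) => (j, k + 1)
  | (0, k) => (k + 1, 0)

/-- The exponents of the monomials `1, z₁, z₂, z₁², z₁z₂, z₂², z₁³, …`, in this order. -/
def exponent (i : ℕ) : ℕ × ℕ := nextExponent^[i] (0, 0)

/-- The `i`-th monomial in the degree-lexicographic order, starting with the `0`-th one, `1`. -/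
noncomputable def mono (i : ℕ) : MvPolynomial (Fin 2) ℂ :=
  X 0 ^ (exponent i).1 * X 1 ^ (exponent i).2

/-- `𝒫ₙ`, the span of the first `n + 1` monomials. -/
noncomputable def polySpace (n : ℕ) : Submodule ℂ (MvPolynomial (Fin 2) ℂ) :=
  Submodule.span ℂ {m | ∃ i, i ≤ n ∧ m = mono i}

/-- The norm of a polynomial in the Hardy space `H²(𝔻²)`: the square root of the sum of the squared
absolute values of its coefficients. -/
noncomputable def hardyNorm (p : MvPolynomial (Fin 2) ℂ) : ℝ :=
  Real.sqrt (∑ m ∈ p.support, ‖p.coeff m‖ ^ 2)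

/-- `q` is an `n`-th optimal polynomial approximant of `1 / f` in `H²(𝔻²)`. -/
def IsOPA (n : ℕ) (f q : MvPolynomial (Fin 2) ℂ) : Prop :=
  q ∈ polySpace n ∧ ∀ p ∈ polySpace n, hardyNorm (q * f - 1) ≤ hardyNorm (p * f - 1)

end Pool.Agent.N284.Shanks
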