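import Pool.Agent.N284.Shanks.Defs

/-!
# The weak Shanks conjecture fails in the Hardy space of the bidisk: the computation

The polynomial `f = (3 + 2 z₁)(3 + 2 z₂)(2 + z₁ z₂)²` has no zeros in the closed bidisk, and the
optimal polynomial approximant `q₂` of `1 / f` (degree at most one) vanishes at a point of the open
bidisk.
-/

set_option autoImplicit false

open MvPolynomial

namespace Pool.Agent.N284.Shanks


/-- the inner product -/
noncomputable def ip (p q : MvPolynomial (Fin 2) ℂ) : ℂ :=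
  ∑ m ∈ p.support, (starRingEnd ℂ) (p.coeff m) * q.coeff m

lemma ip_eq_of_subset (p q : MvPolynomial (Fin 2) ℂ) (S : Finset (Fin 2 →₀ ℕ))
    (h : p.support ⊆ S) : ip p q = ∑ m ∈ S, (starRingEnd ℂ) (p.coeff m) * q.coeff m := by
  unfold ip
  apply Finset.sum_subset h
  intro m _ hm
  rw [MvPolynomial.notMem_support_iff.mp hm, map_zero, zero_mul]

lemma ip_add_right (p q r : MvPolynomial (Fin 2) ℂ) : ip p (q + r) = ip p q + ip p r := by
  unfold ip
  rw [← Finset.sum_add_distrib]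
  exact Finset.sum_congr rfl fun m _ => by rw [coeff_add, mul_add]

lemma ip_add_left (p q r : MvPolynomial (Fin 2) ℂ) : ip (p + q) r = ip p r + ip q r := by
  classical
  have h1 : (p + q).support ⊆ p.support ∪ q.support := MvPolynomial.support_add
  rw [ip_eq_of_subset (p + q) r _ h1, ip_eq_of_subset p r _ Finset.subset_union_left,
    ip_eq_of_subset q r _ Finset.subset_union_right, ← Finset.sum_add_distrib]
  exact Finset.sum_congr rfl fun m _ => by rw [coeff_add, map_add, add_mul]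

lemma ip_smul_right (p q : MvPolynomial (Fin 2) ℂ) (a : ℂ) : ip p (a • q) = a * ip p q := by
  unfold ip
  rw [Finset.mul_sum]
  exact Finset.sum_congr rfl fun m _ => by rw [coeff_smul, smul_eq_mul]; ring

lemma ip_conj (p q : MvPolynomial (Fin 2) ℂ) : ip q p = (starRingEnd ℂ) (ip p q) := by
  classical
  rw [ip_eq_of_subset q p (p.support ∪ q.support) Finset.subset_union_right,
    ip_eq_of_subset p q (p.support ∪ q.support) Finset.subset_union_left, map_sum]
  exact Finset.sum_congr rfl fun m _ => by rw [map_mul, Complex.conj_conj, mul_comm]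

lemma ip_smul_left (p q : MvPolynomial (Fin 2) ℂ) (a : ℂ) :
    ip (a • p) q = (starRingEnd ℂ) a * ip p q := by
  rw [ip_conj q (a • p), ip_smul_right, map_mul, ← ip_conj]

/-- squared norm -/
noncomputable def nsq (p : MvPolynomial (Fin 2) ℂ) : ℝ := ∑ m ∈ p.support, ‖p.coeff m‖ ^ 2

lemma ip_self (p : MvPolynomial (Fin 2) ℂ) : ip p p = (nsq p : ℂ) := by
  unfold ip nsq
  rw [Complex.ofReal_sum]
  exact Finset.sum_congr rfl fun m _ => by rw [Complex.conj_mul', Complex.ofReal_pow]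

lemma nsq_nonneg (p : MvPolynomial (Fin 2) ℂ) : 0 ≤ nsq p :=
  Finset.sum_nonneg fun _ _ => by positivity

lemma nsq_eq_zero {p : MvPolynomial (Fin 2) ℂ} (h : nsq p = 0) : p = 0 := by
  unfold nsq at h
  rw [Finset.sum_eq_zero_iff_of_nonneg (fun _ _ => by positivity)] at h
  ext m
  rw [coeff_zero]
  by_contra hm
  have h1 := h m (MvPolynomial.mem_support_iff.mpr hm)
  rw [sq_eq_zero_iff, norm_eq_zero] at h1
  exact hm h1

lemma nsq_add {u v : MvPolynomial (Fin 2) ℂ} (h : ip u v = 0) : nsq (u + v) = nsq u + nsq v := by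
  have h1 : ip v u = 0 := by rw [ip_conj u v, h, map_zero]
  have h2 : ((nsq (u + v) : ℝ) : ℂ) = ((nsq u + nsq v : ℝ) : ℂ) := by
    rw [← ip_self, ip_add_left, ip_add_right, ip_add_right, h, h1, ip_self, ip_self]
    push_cast
    ring
  exact_mod_cast h2

/-- monomials -/
noncomputable def M (i j : ℕ) (a : ℂ) : MvPolynomial (Fin 2) ℂ :=
  monomial (Finsupp.single 0 i + Finsupp.single 1 j) a

lemma exp_eq_iff (i j k l : ℕ) :
    (Finsupp.single 0 i + Finsupp.single 1 j : Fin 2 →₀ ℕ) =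
      Finsupp.single 0 k + Finsupp.single 1 l ↔ i = k ∧ j = l := by
  constructor
  · intro h
    have h0 := DFunLike.congr_fun h 0
    have h1 := DFunLike.congr_fun h 1
    simp at h0 h1
    exact ⟨h0, h1⟩
  · rintro ⟨rfl, rfl⟩; rfl

lemma ip_M (i j k l : ℕ) (a b : ℂ) :
    ip (M i j a) (M k l b) = if i = k ∧ j = l then (starRingEnd ℂ) a * b else 0 := by
  classical
  have h1 : (M i j a).support ⊆ {Finsupp.single 0 i + Finsupp.single 1 j} :=
    MvPolynomial.support_monomial_subset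
  rw [ip_eq_of_subset _ _ _ h1, Finset.sum_singleton]
  unfold M
  rw [coeff_monomial, coeff_monomial, if_pos rfl]
  by_cases h : i = k ∧ j = l
  · rw [if_pos h, if_pos ((exp_eq_iff _ _ _ _).mpr ⟨h.1.symm, h.2.symm⟩)]
  · rw [if_neg h, if_neg (fun h2 => h ?_), mul_zero]
    obtain ⟨h3, h4⟩ := (exp_eq_iff _ _ _ _).mp h2
    exact ⟨h3.symm, h4.symm⟩

lemma M_mul (i j k l : ℕ) (a b : ℂ) : M i j a * M k l b = M (i + k) (j + l) (a * b) := by
  have h : (Finsupp.single 0 i + Finsupp.single 1 j : Fin 2 →₀ ℕ) +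
      (Finsupp.single 0 k + Finsupp.single 1 l) =
      Finsupp.single 0 (i + k) + Finsupp.single 1 (j + l) := by
    rw [Finsupp.single_add, Finsupp.single_add, add_add_add_comm]
  unfold M
  rw [monomial_mul, h]

lemma X0_mul_M (k l : ℕ) (b : ℂ) : X 0 * M k l b = M (k + 1) l b := by
  have : (X 0 : MvPolynomial (Fin 2) ℂ) = M 1 0 1 := by
    unfold M; simp [X]
  rw [this, M_mul, one_mul, add_comm 1 k, zero_add]

lemma X1_mul_M (k l : ℕ) (b : ℂ) : X 1 * M k l b = M k (l + 1) b := by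
  have : (X 1 : MvPolynomial (Fin 2) ℂ) = M 0 1 1 := by
    unfold M; simp [X]
  rw [this, M_mul, one_mul, add_comm 1 l, zero_add]

lemma one_eq_M : (1 : MvPolynomial (Fin 2) ℂ) = M 0 0 1 := by
  unfold M; simp

/-- The polynomial `f`. -/
noncomputable def F : MvPolynomial (Fin 2) ℂ :=
  (C 3 + C 2 * X 0) * (C 3 + C 2 * X 1) * (C 2 + X 0 * X 1) ^ 2

lemma M_eq (i j : ℕ) (a : ℂ) : M i j a = C a * (X 0 ^ i * X 1 ^ j) := by
  unfold M
  rw [X_pow_eq_monomial, X_pow_eq_monomial, monomial_mul, C_mul_monomial, mul_one, mul_one]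

lemma F_eq : F = M 0 0 36 + M 1 0 24 + M 0 1 24 + M 1 1 52 + M 2 1 24 + M 1 2 24 + M 2 2 25
    + M 3 2 6 + M 2 3 6 + M 3 3 4 := by
  simp only [M_eq, F, map_ofNat]
  ring

lemma X0F_eq : X 0 * F = M 1 0 36 + M 2 0 24 + M 1 1 24 + M 2 1 52 + M 3 1 24 + M 2 2 24
    + M 3 2 25 + M 4 2 6 + M 3 3 6 + M 4 3 4 := by
  rw [F_eq]
  simp only [mul_add, X0_mul_M, Nat.reduceAdd]

lemma X1F_eq : X 1 * F = M 0 1 36 + M 1 1 24 + M 0 2 24 + M 1 2 52 + M 2 2 24 + M 1 3 24
    + M 2 3 25 + M 3 3 6 + M 2 4 6 + M 3 4 4 := by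
  rw [F_eq]
  simp only [mul_add, X1_mul_M, Nat.reduceAdd]

lemma g00 : ip F F = 7017 := by
  rw [F_eq]
  simp only [ip_add_left, ip_add_right, ip_M, map_ofNat]
  norm_num

lemma g01 : ip F (X 0 * F) = 4134 := by
  rw [X0F_eq, F_eq]
  simp only [ip_add_left, ip_add_right, ip_M, map_ofNat]
  norm_num

lemma g02 : ip F (X 1 * F) = 4134 := by
  rw [X1F_eq, F_eq]
  simp only [ip_add_left, ip_add_right, ip_M, map_ofNat]
  norm_num

lemma g11 : ip (X 0 * F) (X 0 * F) = 7017 := by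
  rw [X0F_eq]
  simp only [ip_add_left, ip_add_right, ip_M, map_ofNat]
  norm_num

lemma g22 : ip (X 1 * F) (X 1 * F) = 7017 := by
  rw [X1F_eq]
  simp only [ip_add_left, ip_add_right, ip_M, map_ofNat]
  norm_num

lemma g12 : ip (X 0 * F) (X 1 * F) = 1188 := by
  rw [X0F_eq, X1F_eq]
  simp only [ip_add_left, ip_add_right, ip_M, map_ofNat]
  norm_num

lemma h0 : ip 1 F = 36 := by
  rw [F_eq, one_eq_M]
  simp only [ip_add_right, ip_M]
  norm_num

lemma h1 : ip 1 (X 0 * F) = 0 := by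
  rw [X0F_eq, one_eq_M]
  simp only [ip_add_right, ip_M]
  norm_num

lemma h2 : ip 1 (X 1 * F) = 0 := by
  rw [X1F_eq, one_eq_M]
  simp only [ip_add_right, ip_M]
  norm_num

lemma mono_zero : mono 0 = 1 := by
  simp [mono, exponent]

lemma mono_one : mono 1 = X 0 := by
  simp [mono, exponent, nextExponent]

lemma mono_two : mono 2 = X 1 := by
  simp [mono, exponent, nextExponent]

lemma mem_polySpace (p : MvPolynomial (Fin 2) ℂ) :
    p ∈ polySpace 2 ↔ ∃ a b c : ℂ, p = a • 1 + b • X 0 + c • X 1 := by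
  have hset : {m : MvPolynomial (Fin 2) ℂ | ∃ i, i ≤ 2 ∧ m = mono i} = {1, X 0, X 1} := by
    ext m
    simp only [Set.mem_ofPred_eq, Set.mem_insert_iff, Set.mem_singleton_iff]
    constructor
    · rintro ⟨i, hi, rfl⟩
      interval_cases i
      · exact Or.inl mono_zero
      · exact Or.inr (Or.inl mono_one)
      · exact Or.inr (Or.inr mono_two)
    · rintro (rfl | rfl | rfl)
      · exact ⟨0, by norm_num, mono_zero.symm⟩
      · exact ⟨1, by norm_num, mono_one.symm⟩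
      · exact ⟨2, by norm_num, mono_two.symm⟩
  unfold polySpace
  rw [hset, Submodule.mem_span_triple]
  constructor
  · rintro ⟨a, b, c, h⟩; exact ⟨a, b, c, h.symm⟩
  · rintro ⟨a, b, c, h⟩; exact ⟨a, b, c, h.symm⟩

/-- The approximant. -/
noncomputable def Q : MvPolynomial (Fin 2) ℂ :=
  (32820 / 2599397 : ℂ) • 1 + (-16536 / 2599397 : ℂ) • X 0 + (-16536 / 2599397 : ℂ) • X 1

/-- the error -/
lemma err_eq : Q * F - 1 = (32820 / 2599397 : ℂ) • F + (-16536 / 2599397 : ℂ) • (X 0 * F)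
    + (-16536 / 2599397 : ℂ) • (X 1 * F) + (-1 : ℂ) • 1 := by
  unfold Q
  rw [add_mul, add_mul, smul_mul_assoc, smul_mul_assoc, smul_mul_assoc, one_mul, neg_one_smul,
    sub_eq_add_neg]

lemma orth (a b c : ℂ) : ip (Q * F - 1) ((a • 1 + b • X 0 + c • X 1) * F) = 0 := by
  have g10 : ip (X 0 * F) F = 4134 := by rw [ip_conj F, g01, map_ofNat]
  have g20 : ip (X 1 * F) F = 4134 := by rw [ip_conj F, g02, map_ofNat]
  have g21 : ip (X 1 * F) (X 0 * F) = 1188 := by rw [ip_conj (X 0 * F), g12, map_ofNat]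
  rw [err_eq, add_mul, add_mul, smul_mul_assoc, smul_mul_assoc, smul_mul_assoc, one_mul]
  simp only [ip_add_left, ip_add_right, ip_smul_left, ip_smul_right, g00, g01, g02, g10, g20,
    g11, g22, g12, g21, h0, h1, h2, map_div₀, map_neg, map_ofNat, map_one]
  ring

lemma F_ne_zero : F ≠ 0 := by
  intro h
  have := g00
  rw [h] at this
  simp [ip] at this

lemma hardyNorm_sq (p : MvPolynomial (Fin 2) ℂ) : hardyNorm p = Real.sqrt (nsq p) := rfl

lemma pyth (a b c : ℂ) : nsq ((a • 1 + b • X 0 + c • X 1) * F - 1) =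
    nsq (Q * F - 1) + nsq (((a • 1 + b • X 0 + c • X 1) - Q) * F) := by
  have e : (a • 1 + b • X 0 + c • X 1) * F - 1 =
      (Q * F - 1) + ((a • 1 + b • X 0 + c • X 1) - Q) * F := by ring
  rw [e]
  apply nsq_add
  have e2 : (a • 1 + b • X 0 + c • X 1) - Q =
      (a - 32820 / 2599397 : ℂ) • 1 + (b - -16536 / 2599397 : ℂ) • X 0 +
        (c - -16536 / 2599397 : ℂ) • X 1 := by
    unfold Q
    simp only [sub_smul]
    abel
  rw [e2]
  exact orth _ _ _

lemma Q_mem : Q ∈ polySpace 2 := (mem_polySpace Q).mpr ⟨_, _, _, rfl⟩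

lemma isOPA_Q : IsOPA 2 F Q := by
  refine ⟨Q_mem, fun p hp => ?_⟩
  obtain ⟨a, b, c, rfl⟩ := (mem_polySpace p).mp hp
  rw [hardyNorm_sq, hardyNorm_sq, pyth]
  exact Real.sqrt_le_sqrt (le_add_of_nonneg_right (nsq_nonneg _))

lemma opa_unique (p : MvPolynomial (Fin 2) ℂ) (hp : IsOPA 2 F p) : p = Q := by
  obtain ⟨a, b, c, rfl⟩ := (mem_polySpace p).mp hp.1
  have h1 := hp.2 Q Q_mem
  rw [hardyNorm_sq, hardyNorm_sq, Real.sqrt_le_sqrt_iff (nsq_nonneg _), pyth] at h1
  have h2 : nsq (((a • 1 + b • X 0 + c • X 1) - Q) * F) = 0 :=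
    le_antisymm (by linarith) (nsq_nonneg _)
  have h3 := nsq_eq_zero h2
  rcases mul_eq_zero.mp h3 with h | h
  · exact sub_eq_zero.mp h
  · exact absurd h F_ne_zero

lemma F_zero_free (z : Fin 2 → ℂ) (h0 : ‖z 0‖ ≤ 1) (h1 : ‖z 1‖ ≤ 1) : eval z F ≠ 0 := by
  have key : ∀ (a b : ℝ) (w : ℂ), ‖w‖ ≤ 1 → 0 ≤ b → b < a → ((a : ℂ) + b * w) ≠ 0 := by
    intro a b w hw hb hab h
    have h2 : (a : ℂ) = -(b * w) := by linear_combination h
    have h3 : ‖(a : ℂ)‖ = ‖(b : ℂ) * w‖ := by rw [h2, norm_neg]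
    rw [norm_mul, Complex.norm_real, Complex.norm_real, Real.norm_of_nonneg hb,
      Real.norm_of_nonneg (by linarith)] at h3
    nlinarith [norm_nonneg w]
  unfold F
  simp only [map_mul, map_add, map_pow, eval_C, eval_X]
  have hw : ‖z 0 * z 1‖ ≤ 1 := by
    rw [norm_mul]; exact mul_le_one₀ h0 (norm_nonneg _) h1
  have k1 := key 3 2 (z 0) h0 (by norm_num) (by norm_num)
  have k2 := key 3 2 (z 1) h1 (by norm_num) (by norm_num)
  have k3 := key 2 1 (z 0 * z 1) hw (by norm_num) (by norm_num)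
  push_cast at k1 k2 k3
  rw [one_mul] at k3
  exact mul_ne_zero (mul_ne_zero k1 k2) (pow_ne_zero 2 k3)

end Pool.Agent.N284.Shanks
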